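import Pool.Agent.H57.PFAll
import Mathlib.Order.Lattice.Congruence

/-!
# The subword complex equivalence of an alternating word is a lattice congruence

For every finite Coxeter system, every alternating word `Q` and every element `ω` such that the
subword complex of `Q` and `ω` has a facet, the subword complex equivalence is a lattice congruence
of the interval `[e, ω]` of the right weak order.
-/

set_option linter.unusedSectionVars false

namespace Pool.Agent.Results.MP_170371_co.SubwordCongruence

open H57 CoxeterSystem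

variable {B : Type*} [Fintype B] [DecidableEq B] {W : Type*} [Group W] {M : CoxeterMatrix B}

/-- The simple root `α_s`: the basis vector of `s` in `B → ℝ`. -/
def simpleRoot (s : B) : B → ℝ := Pi.single s 1

/-- `ρ` is the geometric representation of `W` on `B → ℝ`: the generator `s` acts by
`x ↦ x - 2 B(x, α_s) α_s`, where `B(α_t, α_s) = -cos (π / M t s)`. Such a `ρ` is unique, because
the generators `s` generate `W`. -/
def IsGeometricRep (cs : CoxeterSystem M W) (ρ : W →* Module.End ℝ (B → ℝ)) : Prop :=
  ∀ (s : B) (x : B → ℝ), ρ (cs.simple s) x =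
    x - (2 * ∑ t, x t * -Real.cos (Real.pi / M t s)) • simpleRoot s

/-- The root system `Φ`: all `w α_s`. -/
def Roots (ρ : W →* Module.End ℝ (B → ℝ)) : Set (B → ℝ) :=
  {v | ∃ (w : W) (s : B), v = ρ w (simpleRoot s)}

/-- The positive roots `Φ⁺`: the roots with nonnegative coordinates in the basis of simple
roots. -/
def PosRoots (ρ : W →* Module.End ℝ (B → ℝ)) : Set (B → ℝ) := {v | v ∈ Roots ρ ∧ ∀ s, 0 ≤ v s}

/-- The letters of `Q` at the positions in `X`, read in increasing order of positions. -/
def lettersAt (Q : List B) (X : Finset (Fin Q.length)) : List B :=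
  ((List.finRange Q.length).filter fun k => decide (k ∈ X)).map Q.get

/-- `I` is a facet of the subword complex of `Q` and `ω`: the letters of `Q` at the positions
outside `I` form a reduced expression of `ω`. -/
def IsFacet (cs : CoxeterSystem M W) (Q : List B) (ω : W) (I : Finset (Fin Q.length)) : Prop :=
  cs.IsReduced (lettersAt Q Iᶜ) ∧ cs.wordProd (lettersAt Q Iᶜ) = ω

/-- The root function `r(I, k)`: the product of the letters at the positions before `k` outside `I`,
applied to the simple root of the letter at position `k`. -/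
def rootFn (cs : CoxeterSystem M W) (ρ : W →* Module.End ℝ (B → ℝ)) (Q : List B)
    (I : Finset (Fin Q.length)) (k : Fin Q.length) : B → ℝ :=
  ρ (cs.wordProd (lettersAt Q (Finset.univ.filter fun j => j < k ∧ j ∉ I)))
    (simpleRoot (Q.get k))

/-- The linear extensions of `I`: the elements `π` with `r(I, i) ∈ π(Φ⁺)` for all `i ∈ I`. -/
def LinExt (cs : CoxeterSystem M W) (ρ : W →* Module.End ℝ (B → ℝ)) (Q : List B)
    (I : Finset (Fin Q.length)) : Set W :=
  {π | ∀ i ∈ I, rootFn cs ρ Q I i ∈ ρ π '' PosRoots ρ}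

/-- The right weak order. -/
def WeakLE (cs : CoxeterSystem M W) (u w : W) : Prop :=
  cs.length u + cs.length (u⁻¹ * w) = cs.length w

/-- The interval `[e, ω]` of the weak order. -/
def Interval (cs : CoxeterSystem M W) (ω : W) : Type _ := {w : W // WeakLE cs w ω}

/-- The subword complex equivalence on `[e, ω]`: `x` and `y` are equivalent if both are linear
extensions of one facet. -/
def SubwordEquiv (cs : CoxeterSystem M W) (ρ : W →* Module.End ℝ (B → ℝ)) (Q : List B) (ω : W)
    (x y : Interval cs ω) : Prop :=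
  ∃ I : Finset (Fin Q.length), IsFacet cs Q ω I ∧ x.1 ∈ LinExt cs ρ Q I ∧ y.1 ∈ LinExt cs ρ Q I

/-- The word `Q` is alternating: for any two distinct non-commuting generators `s`, `t`, no two
consecutive members of the subword of all occurrences of `s` and `t` are equal. -/
def Alternating (cs : CoxeterSystem M W) (Q : List B) : Prop :=
  ∀ s t : B, s ≠ t → cs.simple s * cs.simple t ≠ cs.simple t * cs.simple s →
    (Q.filter fun x => decide (x = s ∨ x = t)).IsChain (· ≠ ·)

/-! ### Comparison with flagged words -/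

lemma pr_map (cs : CoxeterSystem M W) {ι : Type*} (l : List ι) (f : ι → B) (g : ι → Bool) :
    pr cs (l.map fun j => (f j, g j)) = cs.wordProd ((l.filter g).map f) := by
  induction l with
  | nil => simp
  | cons a l ih =>
    cases h : g a
    · simp [h, ih]
    · simp [h, ih, cs.wordProd_cons]

lemma cnt_map {ι : Type*} (l : List ι) (f : ι → B) (g : ι → Bool) :
    cnt (l.map fun j => (f j, g j)) = ((l.filter g).map f).length := by
  induction l with
  | nil => simp
  | cons a l ih =>
    cases h : g a
    · simp [h, ih]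
    · simp [h, ih]

/-- the flagged word of a set of positions -/
def flagOf (Q : List B) (I : Finset (Fin Q.length)) : List (B × Bool) :=
  (List.finRange Q.length).map fun k => (Q.get k, decide (k ∉ I))

lemma flagOf_fst (Q : List B) (I : Finset (Fin Q.length)) : (flagOf Q I).map Prod.fst = Q := by
  rw [flagOf, List.map_map]
  exact List.map_get_finRange Q

lemma exists_flagOf (Q : List B) (L : List (B × Bool)) (hL : L.map Prod.fst = Q) :
    ∃ I, flagOf Q I = L := by
  subst hL
  have hlen : (L.map Prod.fst).length = L.length := List.length_map _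
  refine ⟨Finset.univ.filter fun k => (L.get (k.cast hlen)).2 = false, ?_⟩
  apply List.ext_get
  · simp [flagOf]
  · intro n h1 h2
    simp only [flagOf, List.get_eq_getElem, List.getElem_map, List.getElem_finRange,
      Finset.mem_filter, Finset.mem_univ, true_and, Fin.val_cast, Bool.not_eq_false]
    apply Prod.ext
    · simp
    · simp

lemma facet_iff (cs : CoxeterSystem M W) (Q : List B) (ω : W) (I : Finset (Fin Q.length)) :
    Facet cs Q ω (flagOf Q I) ↔ IsFacet cs Q ω I := by
  have e : lettersAt Q Iᶜ =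
      ((List.finRange Q.length).filter fun k => decide (k ∉ I)).map Q.get := by
    simp [lettersAt]
  have h1 : pr cs (flagOf Q I) = cs.wordProd (lettersAt Q Iᶜ) := by
    rw [e]; exact pr_map cs _ _ _
  have h2 : cnt (flagOf Q I) = (lettersAt Q Iᶜ).length := by
    rw [e]; exact cnt_map _ _ _
  constructor
  · intro h
    refine ⟨?_, by rw [← h1]; exact h.prod⟩
    have := h.red
    unfold Red at this
    rw [h1, h2] at this
    exact this
  · rintro ⟨h3, h4⟩
    refine ⟨flagOf_fst Q I, by rw [h1]; exact h4, ?_⟩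
    unfold Red
    rw [h1, h2]
    exact h3

/-- the letters before a given position -/
lemma filter_before {n : ℕ} (l₁ l₂ : List (Fin n)) (k : Fin n)
    (h : List.finRange n = l₁ ++ k :: l₂) (p : Fin n → Bool) :
    l₁.filter p = (List.finRange n).filter fun j => decide (j < k) && p j := by
  have hs := List.pairwise_lt_finRange n
  rw [h, List.pairwise_append] at hs
  obtain ⟨-, h2, h3⟩ := hs
  rw [List.pairwise_cons] at h2
  rw [h, List.filter_append]
  have e1 : (k :: l₂).filter (fun j => decide (j < k) && p j) = [] := by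
    rw [List.filter_eq_nil_iff]
    intro j hj
    rw [List.mem_cons] at hj
    rcases hj with rfl | hj
    · simp
    · have := h2.1 j hj
      simp [not_lt.mpr this.le]
  rw [e1, List.append_nil]
  apply List.filter_congr
  intro j hj
  have := h3 j hj k (List.mem_cons_self ..)
  simp [this]

lemma rootFn_eq (cs : CoxeterSystem M W) (Q : List B) (I : Finset (Fin Q.length))
    {l₁ l₂ : List (Fin Q.length)} {k : Fin Q.length}
    (h : List.finRange Q.length = l₁ ++ k :: l₂) :
    act cs (pr cs (l₁.map fun j => (Q.get j, decide (j ∉ I)))) (al (Q.get k)) =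
      rootFn cs (act cs) Q I k := by
  rw [rootFn, pr_map, lettersAt, filter_before l₁ l₂ k h]
  change act cs _ (al (Q.get k)) = act cs _ (al (Q.get k))
  congr 4
  apply List.filter_congr
  intro j _
  simp [Bool.decide_and]

lemma valid_iff (cs : CoxeterSystem M W) (Q : List B) (I : Finset (Fin Q.length)) (π : W) :
    Valid cs π (flagOf Q I) ↔ π ∈ LinExt cs (act cs) Q I := by
  have hroot : ∀ k, IsRoot cs (rootFn cs (act cs) Q I k) := fun k => (isRoot_al cs _).image _
  have hmem : ∀ k, rootFn cs (act cs) Q I k ∈ act cs π '' PosRoots (act cs) ↔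
      0 ≤ act cs π⁻¹ (rootFn cs (act cs) Q I k) := by
    intro k
    constructor
    · rintro ⟨v, ⟨hv1, hv2⟩, hv3⟩
      rw [← hv3, act_inv_act]
      exact hv2
    · intro h
      refine ⟨act cs π⁻¹ (rootFn cs (act cs) Q I k), ⟨?_, h⟩, act_act_inv cs _ _⟩
      exact (hroot k).image _
  constructor
  · intro h i hi
    rw [hmem]
    obtain ⟨l₁, l₂, hl⟩ := List.append_of_mem (List.mem_finRange i)
    rw [← rootFn_eq cs Q I hl]
    apply h _ _ (l₂.map fun j => (Q.get j, decide (j ∉ I)))
    rw [flagOf, hl]
    simp [hi]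
  · intro h L₁ s L₂ he
    rw [flagOf, List.map_eq_append_iff] at he
    obtain ⟨l₁, l', hl, rfl, hl'⟩ := he
    rw [List.map_eq_cons_iff] at hl'
    obtain ⟨k, l₂, rfl, hk, -⟩ := hl'
    simp only [Prod.mk.injEq, decide_eq_false_iff_not, not_not] at hk
    obtain ⟨rfl, hkI⟩ := hk
    rw [rootFn_eq cs Q I hl, ← hmem]
    exact h k hkI

lemma not_commute (cs : CoxeterSystem M W) [Finite W] {s t : B} (hst : s ≠ t) (hM : M s t ≠ 2) :
    cs.simple s * cs.simple t ≠ cs.simple t * cs.simple s := by
  intro h
  have h0 := M_ne_zero cs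
  have h1 := congrArg (fun w => act cs w (al t) s) h
  simp only [act_mul, act_simple_al, map_neg, Pi.neg_apply] at h1
  simp only [act_simple, sref_apply, form_al_al, map_sub, map_smul, Pi.sub_apply, Pi.smul_apply,
    al_self, al_ne hst, smul_eq_mul, (gram_compat M).diag] at h1
  have h2 := gram_le_neg_one h0 (Ne.symm hst) (by rwa [M.symmetric])
  have h3 := (gram_compat M).symm s t
  rw [h3] at h1
  nlinarith

lemma isGeometricRep_act (cs : CoxeterSystem M W) : IsGeometricRep cs (act cs) := by
  intro s x
  rw [act_simple, sref_apply, form_al_right, Finset.mul_sum]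
  congr 2
  refine Finset.sum_congr rfl fun t _ => ?_
  rw [gram]; ring

/-- **Main theorem.** Let `(W, S)` be a finite Coxeter system with geometric representation `ρ`.
For every alternating word `Q` and every `ω` for which the subword complex has a facet, the
interval `[e, ω]` of the right weak order is a lattice, and the subword complex equivalence is a
congruence of this lattice. -/
theorem result (cs : CoxeterSystem M W) [Finite W] :
    ∃ ρ : W →* Module.End ℝ (B → ℝ), IsGeometricRep cs ρ ∧
      ∀ (Q : List B), Alternating cs Q → ∀ ω : W, (∃ I, IsFacet cs Q ω I) →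
        ∃ L : Lattice (Interval cs ω), (∀ x y : Interval cs ω, L.le x y ↔ WeakLE cs x.1 y.1) ∧
          ∃ c : @LatticeCon (Interval cs ω) L, ∀ x y : Interval cs ω,
            c.r x y ↔ SubwordEquiv cs ρ Q ω x y := by
  classical
  refine ⟨act cs, isGeometricRep_act cs, ?_⟩
  intro Q hQ ω hne
  -- heights
  have hQ' : AltW M Q := fun s t hst hM => hQ s t hst (not_commute cs hst hM)
  obtain ⟨h, halt⟩ := exists_height cs Q hQ'
  have hPF := pf_finite cs
  have hHas : Has cs Q ω := by
    obtain ⟨I, hI⟩ := hne
    rw [← facet_iff] at hI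
    exact ⟨_, hI.word, hI.prod⟩
  have hle : ∀ u w : W, WeakLE cs u w ↔ inver cs u ⊆ inver cs w := fun u w => weak_iff
  have hω : ∀ x : Interval cs ω, inver cs x.1 ⊆ inver cs ω := fun x => (hle _ _).mp x.2
  have hj : ∀ x y : Interval cs ω, ∃ j : Interval cs ω, IsJ cs x.1 y.1 j.1 := by
    intro x y
    obtain ⟨j, h1, h2⟩ := exists_join (cs := cs) (ω := ω) _ 1 x.1 y.1 rfl (one_sub _) (one_sub _)
      (hω x) (hω y)
    exact ⟨⟨j, (hle _ _).mpr h1⟩, h2⟩
  have hm : ∀ x y : Interval cs ω, ∃ j : Interval cs ω, IsMt cs x.1 y.1 j.1 := by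
    intro x y
    obtain ⟨j, h2⟩ := exists_meet (cs := cs) _ ω x.1 y.1 rfl (hω x) (hω y)
    exact ⟨⟨j, (hle _ _).mpr (h2.1.trans (hω x))⟩, h2⟩
  choose J hJ using hj
  choose K hK using hm
  let L : Lattice (Interval cs ω) :=
    { le := fun x y => WeakLE cs x.1 y.1
      le_refl := fun x => (hle _ _).mpr (Finset.Subset.refl _)
      le_trans := fun x y z hxy hyz =>
        (hle _ _).mpr (((hle _ _).mp hxy).trans ((hle _ _).mp hyz))
      le_antisymm := fun x y hxy hyx => Subtype.ext (inver_injective (cs := cs)
        (Finset.Subset.antisymm ((hle _ _).mp hxy) ((hle _ _).mp hyx)))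
      sup := J
      le_sup_left := fun x y => (hle _ _).mpr (hJ x y).1
      le_sup_right := fun x y => (hle _ _).mpr (hJ x y).2.1
      sup_le := fun x y z hx hy =>
        (hle _ _).mpr ((hJ x y).2.2 _ ((hle _ _).mp hx) ((hle _ _).mp hy))
      inf := K
      inf_le_left := fun x y => (hle _ _).mpr (hK x y).1
      inf_le_right := fun x y => (hle _ _).mpr (hK x y).2.1
      le_inf := fun x y z hx hy =>
        (hle _ _).mpr ((hK y z).2.2 _ ((hle _ _).mp hx) ((hle _ _).mp hy)) }
  have hSR : ∀ x y : Interval cs ω, SubwordEquiv cs (act cs) Q ω x y ↔ SR cs Q ω x.1 y.1 := by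
    intro x y
    constructor
    · rintro ⟨I, h1, h2, h3⟩
      exact ⟨flagOf Q I, (facet_iff cs Q ω I).mpr h1, (valid_iff cs Q I _).mpr h2,
        (valid_iff cs Q I _).mpr h3⟩
    · rintro ⟨L, h1, h2, h3⟩
      obtain ⟨I, rfl⟩ := exists_flagOf Q L h1.word
      exact ⟨I, (facet_iff cs Q ω I).mp h1, (valid_iff cs Q I _).mp h2,
        (valid_iff cs Q I _).mp h3⟩
  refine ⟨L, fun x y => Iff.rfl, ?_⟩
  refine ⟨@LatticeCon.mk (Interval cs ω) L
    ⟨fun x y => SubwordEquiv cs (act cs) Q ω x y, ?_, ?_, ?_⟩ ?_ ?_, fun x y => Iff.rfl⟩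
  · intro x
    rw [hSR]; exact SR.refl hHas (hω x)
  · intro x y hxy
    rw [hSR] at hxy ⊢; exact hxy.symm
  · intro x y z hxy hyz
    rw [hSR] at hxy hyz ⊢
    exact hxy.trans (hω y) hyz
  · intro w x y z hwx hyz
    change SubwordEquiv cs (act cs) Q ω (K w y) (K x z)
    change SubwordEquiv cs (act cs) Q ω w x at hwx
    change SubwordEquiv cs (act cs) Q ω y z at hyz
    rw [hSR] at hwx hyz ⊢
    have h1 := meet_compat hPF halt hHas _ w.1 x.1 y.1 _ _ rfl (hω w) (hω x) (hω y) hwx (hK w y)
      (hK x y)
    have h2 := meet_compat hPF halt hHas _ y.1 z.1 x.1 (K x y).1 (K x z).1 rfl (hω y) (hω z)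
      (hω x) hyz
      ⟨(hK x y).2.1, (hK x y).1, fun c h1 h2 => (hK x y).2.2 c h2 h1⟩
      ⟨(hK x z).2.1, (hK x z).1, fun c h1 h2 => (hK x z).2.2 c h2 h1⟩
    exact h1.trans (hω _) h2
  · intro w x y z hwx hyz
    change SubwordEquiv cs (act cs) Q ω (J w y) (J x z)
    change SubwordEquiv cs (act cs) Q ω w x at hwx
    change SubwordEquiv cs (act cs) Q ω y z at hyz
    rw [hSR] at hwx hyz ⊢
    have h1 := join_compat hPF halt hHas _ w.1 x.1 y.1 _ _ rfl (hω w) (hω x) (hω y) hwx (hJ w y)
      (hJ x y)
    have h2 := join_compat hPF halt hHas _ y.1 z.1 x.1 (J x y).1 (J x z).1 rfl (hω y) (hω z)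
      (hω x) hyz
      ⟨(hJ x y).2.1, (hJ x y).1, fun c h1 h2 => (hJ x y).2.2 c h2 h1⟩
      ⟨(hJ x z).2.1, (hJ x z).1, fun c h1 h2 => (hJ x z).2.2 c h2 h1⟩
    exact h1.trans (hω _) h2

end Pool.Agent.Results.MP_170371_co.SubwordCongruence
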